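import Pool.Agent.K3h89.AW.Win
import Pool.Agent.W93.PG7

/-!
# Goldbach representations in primorial intervals for all even integers near almost all elements of an automatic set

Definitions used:
* in `Pool.Agent.H560R3.GB`: `C₂`: the twin prime constant `∏_{p > 2} (1 - 1 / (p - 1) ^ 2)`; `sing m`: the singular
  series `2 C₂ ∏_{p ∣ m, p > 2} (p - 1) / (p - 2)`;
* from Mathlib: `DFA ℕ σ`: the deterministic automata with the set of states `σ` and the alphabet `ℕ`; `M.accepts`: the
  set of the words accepted by `M`; `Nat.digits b v`: the digits of `v` in base `b`, from the least significant to the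
  most significant one.
-/

set_option autoImplicit false

namespace Pool.Agent.Results.MP_484fb8_nt.AutomaticSets

open Finset Pool.Agent.H560R3.GB

/-- `#(n)`: the product of the first `n` primes. -/
noncomputable def P (n : ℕ) : ℕ := ∏ i ∈ range n, Nat.nth Nat.Prime i

/-- The number of primes `p` in the `n`-th primorial interval such that `m - p` is a prime which lies in the
`n`-th or in the `n + 1`-st primorial interval. -/
noncomputable def R (n m : ℕ) : ℕ :=
  ((Icc (P (n - 1) + 1) (P n + 1)).filter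
    (fun p => p.Prime ∧ (m - p).Prime ∧ P (n - 1) + 1 ≤ m - p ∧ m - p ≤ P (n + 1) + 1)).card

/-- If `m` belongs to the `n + 1`-st primorial interval (`n ≥ 1`), then `m = p + q` where `p` is a prime in the
`n`-th primorial interval and `q` is a prime in the `n`-th or in the `n + 1`-st one; moreover, up to a relative
error of at most `ε`, the number of these representations is `sing m * #(n) / log ^ 2 m`. -/
def Holds (ε : ℝ) (m : ℕ) : Prop :=
  ∀ n : ℕ, 1 ≤ n → P n + 1 ≤ m → m ≤ P (n + 1) + 1 →
    (∃ p q : ℕ, p.Prime ∧ q.Prime ∧ m = p + q ∧ P (n - 1) + 1 ≤ p ∧ p ≤ P n + 1 ∧ P (n - 1) + 1 ≤ q ∧ q ≤ P (n + 1) + 1) ∧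
    |(R n m : ℝ) - sing m * P n / Real.log m ^ 2| ≤ ε * (sing m * P n / Real.log m ^ 2)

/-- `Holds` for all the even integers `m > 0` at a distance of at most `r` from `v`. -/
def Near (ε r : ℝ) (v : ℤ) : Prop := ∀ m : ℕ, 0 < m → Even m → |(m : ℝ) - v| ≤ r → Holds ε m

open Classical in
/-- The number of the integers `0 ≤ v < N` with the property `E` whose base `b` digits are accepted by the
automaton `M`. -/
noncomputable def num {σ : Type} (b : ℕ) (M : DFA ℕ σ) (N : ℕ) (E : ℕ → Prop) : ℝ :=
  (((range N).filter fun v => Nat.digits b v ∈ M.accepts ∧ E v).card : ℝ)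

lemma holds_of (ε : ℝ) (hε : 0 < ε) : ∃ m₀ : ℕ, ∀ m : ℕ, m₀ ≤ m → 2 ∣ m →
    Pool.Agent.W93.PG.WinP (min ε (1 / 2) / 4) 2 m → Holds ε m := by
  obtain ⟨m₀, h0⟩ := Pool.Agent.W93.PG.reps_of_win (min ε (1 / 2)) (lt_min hε (by norm_num))
    ((min_le_right _ _).trans (by norm_num))
  refine ⟨m₀ + 3, ?_⟩
  intro m hm _ hwin n hn h2 h3
  have h4 := h0 m (by omega) hwin n hn h2 h3
  have hm0 : (3 : ℝ) ≤ m := by exact_mod_cast (by omega : 3 ≤ m)
  have hlog : 0 < Real.log m := Real.log_pos (by linarith)
  have hs := Pool.Agent.W93.GB.one_le_sing m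
  have hP : (0 : ℝ) < P n := by exact_mod_cast Pool.Agent.W93.PG.PR_pos n
  have hmain : 0 < sing m * P n / Real.log m ^ 2 := by positivity
  have hR : R n m = Pool.Agent.W93.PG.reps n m := rfl
  have hPR : Pool.Agent.W93.PG.PR n = P n := rfl
  rw [← hR, hPR] at h4
  have h5 : |(R n m : ℝ) - sing m * P n / Real.log m ^ 2| ≤ ε * (sing m * P n / Real.log m ^ 2) :=
    h4.trans (mul_le_mul_of_nonneg_right (min_le_left _ _) hmain.le)
  have h6 : |(R n m : ℝ) - sing m * P n / Real.log m ^ 2| ≤ 1 / 2 * (sing m * P n / Real.log m ^ 2) :=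
    h4.trans (mul_le_mul_of_nonneg_right (min_le_right _ _) hmain.le)
  refine ⟨?_, h5⟩
  have h7 : (0 : ℝ) < R n m := by
    rw [abs_le] at h6
    linarith [h6.1]
  have h8 : 0 < R n m := by exact_mod_cast h7
  unfold R at h8
  rw [card_pos] at h8
  obtain ⟨p, hp⟩ := h8
  rw [mem_filter, mem_Icc] at hp
  obtain ⟨⟨p1, p2⟩, p3, p4, p5, p6⟩ := hp
  exact ⟨p, m - p, p3, p4, by have := p4.pos; omega, p1, p2, p5, p6⟩

/-- Let `S` be a `b`-automatic set: the set of the integers `v ≥ 0` whose base `b` digits are accepted by a finite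
automaton `M`. Suppose that `S` is not sparse: the number of the elements of `S` below `N` is not bounded by a power of
`log N`. Let `κ ≠ 0`, `B`, `W`, `U` and `ε > 0` be fixed. Then, if `N` is large, we have for all the integers `c` with
`|c| ≤ B N` and for all the elements `v < N` of `S` with at most `#(S ∩ [0, N)) / log ^ U N` exceptions: ALL the even
integers `m > 0` at a distance of at most `log ^ W N` from `c + κ v` satisfy the assertion of the problem, and the number
of the representations required there is as predicted, up to a relative error of at most `ε`. -/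
theorem result {σ : Type} [Finite σ] (b : ℕ) (hb : 2 ≤ b) (M : DFA ℕ σ)
    (hM : ∀ k : ℕ, ∃ᶠ N : ℕ in Filter.atTop, Real.log N ^ k < num b M N (fun _ => True))
    (κ : ℤ) (hκ : κ ≠ 0) (B W U : ℕ) (ε : ℝ) (hε : 0 < ε) :
    ∃ N₀ : ℕ, ∀ N : ℕ, N₀ ≤ N → ∀ c : ℤ, |c| ≤ B * N →
      num b M N (fun v => ¬ Near ε (Real.log N ^ W) (c + κ * v)) ≤
        num b M N (fun _ => True) / Real.log N ^ U := by
  classical
  have := Fintype.ofFinite σ
  have hnum : ∀ N, num b M N (fun _ => True) = (((range N).filter fun v => Nat.digits b v ∈ M.accepts).card : ℝ) := by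
    intro N
    unfold num
    congr 2
    ext v
    simp only [mem_filter, and_true]
  obtain ⟨m₀, hm₀⟩ := holds_of ε hε
  have hε' : 0 < min ε (1 / 2) / 4 := div_pos (lt_min hε (by norm_num)) (by norm_num)
  obtain ⟨N₀, h⟩ := Pool.Agent.K3h89.AW.win_near b hb M
    (fun k => (hM k).mono fun N hN => by rw [hnum] at hN; exact hN) κ hκ B U 2 m₀ W _ hε' (Holds ε) hm₀
  refine ⟨N₀, fun N hN c hc => ?_⟩
  rw [hnum]
  refine le_trans ?_ (h N hN c hc)
  unfold num
  apply Nat.cast_le.2
  apply card_le_card
  intro v hv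
  simp only [mem_filter] at hv ⊢
  refine ⟨hv.1, hv.2.1, fun hcon => hv.2.2 fun m hm hev hmv => hcon m hm hev ?_⟩
  push_cast at hmv
  exact hmv

end Pool.Agent.Results.MP_484fb8_nt.AutomaticSets
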