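import Pool.Agent.K3h81.PF.Few
import Pool.Agent.W93.PG7

/-!
# Goldbach representations in primorial intervals, for all even integers near almost all numbers which arise from an
arbitrary integer by `C log log` changes of digits

Definition used from `Pool.Agent.H560R3.GB` (starting files): `sing m`: the singular series
`2 C₂ ∏_{p ∣ m, p > 2} (p - 1) / (p - 2)`, where `C₂` is the twin prime constant `∏_{p > 2} (1 - 1 / (p - 1) ^ 2)`.
-/

set_option autoImplicit false

namespace Pool.Agent.Results.MP_484fb8_nt.FewDigitChanges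

open Finset Pool.Agent.H560R3.GB

/-- `#(n)`: the product of the first `n` primes. -/
noncomputable def P (n : ℕ) : ℕ := ∏ i ∈ range n, Nat.nth Nat.Prime i

/-- The number of primes `p` in the `n`-th primorial interval such that `m - p` is a prime which lies in the
`n`-th or in the `n + 1`-st primorial interval. -/
noncomputable def R (n m : ℕ) : ℕ :=
  ((Icc (P (n - 1) + 1) (P n + 1)).filter
    (fun p => p.Prime ∧ (m - p).Prime ∧ P (n - 1) + 1 ≤ m - p ∧ m - p ≤ P (n + 1) + 1)).card

/-- If `m` belongs to the `n + 1`-st primorial interval (`n ≥ 1`), then `m = p + q` where `p` is a prime in the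
`n`-th primorial interval and `q` is a prime in the `n`-th or in the `n + 1`-st one; moreover, up to a relative
error of at most `ε`, the number of these representations is `sing m * #(n) / log ^ 2 m`. -/
def Holds (ε : ℝ) (m : ℕ) : Prop :=
  ∀ n : ℕ, 1 ≤ n → P n + 1 ≤ m → m ≤ P (n + 1) + 1 →
    (∃ p q : ℕ, p.Prime ∧ q.Prime ∧ m = p + q ∧ P (n - 1) + 1 ≤ p ∧ p ≤ P n + 1 ∧ P (n - 1) + 1 ≤ q ∧ q ≤ P (n + 1) + 1) ∧
    |(R n m : ℝ) - sing m * P n / Real.log m ^ 2| ≤ ε * (sing m * P n / Real.log m ^ 2)

/-- The digit number `i` (counted from the right, beginning with `0`) of `n` in base `b`. -/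
def digit (b i n : ℕ) : ℕ := n / b ^ i % b

/-- The number which arises from the number `N` with at most `K` digits in base `b`, if for every `i ∈ T`
the digit number `i` is replaced by `f i`. -/
def change (b K N : ℕ) (f : ℕ → ℕ) (T : Finset ℕ) : ℕ :=
  ∑ i ∈ range K, (if i ∈ T then f i else digit b i N) * b ^ i

/-- The positions `1, ..., K - 1` of a number with at most `K` digits are divided into three windows: the
first and the last `h` positions and the rest. -/
def window (h K : ℕ) (q : Fin 3) : Finset ℕ :=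
  if q = 0 then Ico 1 (1 + h) else if q = 1 then Ico (1 + h) (K - h) else Ico (K - h) K

/-- The choices of `r 0`, `r 1`, `r 2` positions in the three windows. -/
def choices (h K : ℕ) (r : Fin 3 → ℕ) : Finset (Fin 3 → Finset ℕ) :=
  Fintype.piFinset (fun q => powersetCard (r q) (window h K q))

/-- The integer `y` is regular: all the even integers `m` with `b ^ K / K ^ D ≤ m ≤ b ^ K` at a distance of at most
`K ^ W` from `y` satisfy `Holds ε`. -/
def Regular (ε : ℝ) (D W b K y : ℕ) : Prop :=
  ∀ m : ℕ, Even m → m ≤ b ^ K → b ^ K ≤ K ^ D * m → |(m : ℤ) - y| ≤ (K : ℤ) ^ W → Holds ε m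

open Classical in
/-- The number of the choices for which the number obtained by changing the digits of `N` at the chosen
positions (according to `f`) is not regular. -/
noncomputable def exceptions (ε : ℝ) (D W b h K N : ℕ) (f : ℕ → ℕ) (r : Fin 3 → ℕ) : ℕ :=
  ((choices h K r).filter (fun T => ¬ Regular ε D W b K (change b K N f (T 0 ∪ T 1 ∪ T 2)))).card

lemma holds_of (ε : ℝ) (hε : 0 < ε) : ∃ m₀ : ℕ, ∀ m : ℕ, m₀ ≤ m →
    Pool.Agent.W93.PG.WinP (min ε (1 / 2) / 4) 2 m → Holds ε m := by
  obtain ⟨m₀, h0⟩ := Pool.Agent.W93.PG.reps_of_win (min ε (1 / 2)) (lt_min hε (by norm_num))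
    ((min_le_right _ _).trans (by norm_num))
  refine ⟨m₀ + 3, ?_⟩
  intro m hm hwin n hn h2 h3
  have h4 := h0 m (by omega) hwin n hn h2 h3
  have hm0 : (3 : ℝ) ≤ m := by exact_mod_cast (by omega : 3 ≤ m)
  have hlog : 0 < Real.log m := Real.log_pos (by linarith)
  have hs := Pool.Agent.W93.GB.one_le_sing m
  have hP : (0 : ℝ) < P n := by exact_mod_cast Pool.Agent.W93.PG.PR_pos n
  have hmain : 0 < sing m * P n / Real.log m ^ 2 := by positivity
  have hR : R n m = Pool.Agent.W93.PG.reps n m := rfl
  have hPR : Pool.Agent.W93.PG.PR n = P n := rfl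
  rw [← hR, hPR] at h4
  have h5 : |(R n m : ℝ) - sing m * P n / Real.log m ^ 2| ≤ ε * (sing m * P n / Real.log m ^ 2) :=
    h4.trans (mul_le_mul_of_nonneg_right (min_le_left _ _) hmain.le)
  have h6 : |(R n m : ℝ) - sing m * P n / Real.log m ^ 2| ≤ 1 / 2 * (sing m * P n / Real.log m ^ 2) :=
    h4.trans (mul_le_mul_of_nonneg_right (min_le_right _ _) hmain.le)
  refine ⟨?_, h5⟩
  have h7 : (0 : ℝ) < R n m := by
    rw [abs_le] at h6
    linarith [h6.1]
  have h8 : 0 < R n m := by exact_mod_cast h7
  unfold R at h8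
  rw [card_pos] at h8
  obtain ⟨p, hp⟩ := h8
  rw [mem_filter, mem_Icc] at hp
  obtain ⟨⟨p1, p2⟩, p3, p4, p5, p6⟩ := hp
  exact ⟨p, m - p, p3, p4, by have := p4.pos; omega, p1, p2, p5, p6⟩

/-- For every base `b ≥ 2` there is an `R ≥ 1` with the following property. Let `D`, `W`, `U` and `ε > 0` be given. Then
there are `C ≥ 1` and `A` such that for every sufficiently large `K` and every integer `0 ≤ N < b ^ K` the following holds.

Let `l = ⌊log_b (K + 1)⌋ + 1` and `h = A l`, and divide the positions `1, ..., K - 1` of the digits into three windows: the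
first `h` and the last `h` of them, and the rest. Prescribe for every position `j` a digit `f j` different from the
digit of `N`. Let `r 0`, `r 1`, `r 2` be integers between `C l` and `1 / R` times the length of the respective
window (by the first assertion one can take `r q = C l`, so that only `3 C l = O(log log b ^ K)` of the digits of `N` are
changed).

If one chooses `r 0`, `r 1`, `r 2` positions in the three windows and replaces the digits of `N` at these positions, then
for all but at most a proportion `1 / K ^ U` of the choices the number `y` obtained has the following property: ALL the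
even integers `m` with `b ^ K / K ^ D ≤ m ≤ b ^ K` at a distance of at most `K ^ W` from `y` satisfy the assertion of the
problem, and the number of the representations required there is as predicted, up to a relative error of at most `ε`. -/
theorem result (b : ℕ) (hb : 2 ≤ b) : ∃ R : ℕ, 1 ≤ R ∧ ∀ (D W U : ℕ) (ε : ℝ), 0 < ε → ∃ C A K₀ : ℕ, 1 ≤ C ∧
    ∀ K : ℕ, K₀ ≤ K → (∀ q, R * (C * (Nat.log b (K + 1) + 1)) ≤ (window (A * (Nat.log b (K + 1) + 1)) K q).card) ∧
    ∀ N : ℕ, N < b ^ K → ∀ f : ℕ → ℕ, (∀ j, f j < b ∧ f j ≠ digit b j N) →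
    ∀ r : Fin 3 → ℕ, (∀ q, C * (Nat.log b (K + 1) + 1) ≤ r q ∧
      R * r q ≤ (window (A * (Nat.log b (K + 1) + 1)) K q).card) →
    (exceptions ε D W b (A * (Nat.log b (K + 1) + 1)) K N f r : ℝ) ≤
      (choices (A * (Nat.log b (K + 1) + 1)) K r).card / (K : ℝ) ^ U := by
  classical
  obtain ⟨R, hR, H⟩ := Pool.Agent.K3h81.PF.few_near b hb
  refine ⟨8 * R, by omega, fun D W U ε hε => ?_⟩
  obtain ⟨m₀, hm₀⟩ := holds_of ε hε
  obtain ⟨C, hC, H1⟩ := H 2 D W U (min ε (1 / 2) / 4) (div_pos (lt_min hε (by norm_num)) (by norm_num))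
  obtain ⟨A, K₀, hA, H2⟩ := H1 (8 * R * C)
  obtain ⟨k1, h1⟩ := Pool.Agent.W93.DG.hh_small b A 4 hb
  obtain ⟨k2, h2⟩ := Pool.Agent.TH894.LG.pow_le_two_pow (D + 1)
  refine ⟨C, 2 * A, K₀ + k1 + k2 + m₀ + 8, hC, fun K hK => ?_⟩
  have hwin : ∀ q, window (2 * A * (Nat.log b (K + 1) + 1)) K q =
      Pool.Agent.TH894.SM.Win (Pool.Agent.W93.DG.hh b A (K + 1)) (K + 1) q := by
    intro q
    unfold window Pool.Agent.TH894.SM.Win Pool.Agent.W93.DG.hh
    rw [Nat.add_sub_cancel]
  have hsm := h1 (K + 1) (by omega)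
  have hlow : 8 * R * (C * (Nat.log b (K + 1) + 1)) ≤ Pool.Agent.W93.DG.hh b A (K + 1) := by
    unfold Pool.Agent.W93.DG.hh
    calc 8 * R * (C * (Nat.log b (K + 1) + 1)) = (8 * R * C) * (Nat.log b (K + 1) + 1) := by ring
      _ ≤ (2 * A) * (Nat.log b (K + 1) + 1) := Nat.mul_le_mul_right _ (by omega)
  refine ⟨fun q => ?_, fun N hN f hf r hr => ?_⟩
  · rw [hwin]
    refine hlow.trans ?_
    unfold Pool.Agent.TH894.SM.Win
    split_ifs
    · rw [Nat.card_Ico]; omega
    · rw [Nat.card_Ico]; omega
    · rw [Nat.card_Ico]; omega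
  have hun : ∀ S : Fin 3 → Finset ℕ, Pool.Agent.TH894.SM.un S = S 0 ∪ S 1 ∪ S 2 := by
    intro S
    unfold Pool.Agent.TH894.SM.un
    ext x
    simp only [mem_biUnion, mem_univ, true_and, mem_union]
    constructor
    · rintro ⟨q, hq⟩
      have hq3 : q = 0 ∨ q = 1 ∨ q = 2 := by fin_cases q <;> simp
      rcases hq3 with rfl | rfl | rfl
      · exact Or.inl (Or.inl hq)
      · exact Or.inl (Or.inr hq)
      · exact Or.inr hq
    · rintro ((h | h) | h)
      · exact ⟨0, h⟩
      · exact ⟨1, h⟩
      · exact ⟨2, h⟩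
  have hCh : choices (2 * A * (Nat.log b (K + 1) + 1)) K r = Pool.Agent.TH894.LG.Ch b A K r := by
    unfold choices Pool.Agent.TH894.LG.Ch
    simp only [hwin]
  have hkey := H2 K (by omega) N hN f hf r (fun q => (hr q).1) (fun q => by
    have := (hr q).2
    rw [hwin] at this
    exact this)
    ((choices (2 * A * (Nat.log b (K + 1) + 1)) K r).filter
      (fun T => ¬ Regular ε D W b K (change b K N f (T 0 ∪ T 1 ∪ T 2)))) (by rw [hCh]; exact filter_subset _ _) (by
      intro T hT
      rw [mem_filter] at hT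
      have h3 := hT.2
      unfold Regular at h3
      push Not at h3
      obtain ⟨m, hm1, hm2, hm3, hm4, hm5⟩ := h3
      refine ⟨m, hm1.two_dvd, hm2, hm3, ?_, fun hw => hm5 (hm₀ m ?_ hw)⟩
      · rw [hun T]
        exact hm4
      · by_contra hcon
        push Not at hcon
        have h4 : K ^ (D + 1) ≤ b ^ K := (h2 K (by omega)).trans (Nat.pow_le_pow_left hb K)
        have h5 : K ^ D * m < K ^ (D + 1) := by
          rw [pow_succ]
          exact Nat.mul_lt_mul_of_pos_left (by omega) (Nat.pow_pos (by omega))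
        omega)
  unfold exceptions
  refine hkey.trans (le_of_eq ?_)
  rw [← hCh]
  ring

end Pool.Agent.Results.MP_484fb8_nt.FewDigitChanges
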