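import Pool.Agent.R459.Fams
import Pool.Agent.W93.PG7

/-!
# Goldbach representations in primorial intervals for all even integers near almost all rearrangements of digits,
palindromes and quadratic values at integers with restricted digits

Definitions used:
* in `Pool.Agent.H560R3.GB`: `C₂`: the twin prime constant `∏_{p > 2} (1 - 1 / (p - 1) ^ 2)`; `sing m`: the singular
  series `2 C₂ ∏_{p ∣ m, p > 2} (p - 1) / (p - 2)`;
* in `Pool.Agent.R459.Fams`: `Digits b k U κ c η P`: almost all the integers `c + κ v` have the property `P`, up to a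
  proportion of at most `1 / k ^ U`, if `v` runs through the rearrangements of `k` given digits in base `b` (none of
  them at more than `(1 - η) k` places), or through the palindromes with `k` digits, or is random with independent
  pairs of mirror digits; `Quadratics b k U κ β c P`: for arbitrary sets `D i` of at least two digits, almost all the
  integers `c + κ m ^ 2 + β m` have the property `P`, up to a proportion of `1 / k ^ U`, if `m` runs through the integers
  below `b ^ k` whose `i`-th digit lies in `D i` for all `i < k`.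
-/

set_option autoImplicit false

namespace Pool.Agent.Results.MP_484fb8_nt.NearDigitFamilies

open Finset Pool.Agent.H560R3.GB Pool.Agent.R459.Fams

/-- `#(n)`: the product of the first `n` primes. -/
noncomputable def P (n : ℕ) : ℕ := ∏ i ∈ range n, Nat.nth Nat.Prime i

/-- The number of primes `p` in the `n`-th primorial interval such that `m - p` is a prime which lies in the
`n`-th or in the `n + 1`-st primorial interval. -/
noncomputable def R (n m : ℕ) : ℕ :=
  ((Icc (P (n - 1) + 1) (P n + 1)).filter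
    (fun p => p.Prime ∧ (m - p).Prime ∧ P (n - 1) + 1 ≤ m - p ∧ m - p ≤ P (n + 1) + 1)).card

/-- If `m` belongs to the `n + 1`-st primorial interval (`n ≥ 1`), then `m = p + q` where `p` is a prime in the
`n`-th primorial interval and `q` is a prime in the `n`-th or in the `n + 1`-st one; moreover, up to a relative
error of at most `ε`, the number of these representations is `sing m * #(n) / log ^ 2 m`. -/
def Holds (ε : ℝ) (m : ℕ) : Prop :=
  ∀ n : ℕ, 1 ≤ n → P n + 1 ≤ m → m ≤ P (n + 1) + 1 →
    (∃ p q : ℕ, p.Prime ∧ q.Prime ∧ m = p + q ∧ P (n - 1) + 1 ≤ p ∧ p ≤ P n + 1 ∧ P (n - 1) + 1 ≤ q ∧ q ≤ P (n + 1) + 1) ∧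
    |(R n m : ℝ) - sing m * P n / Real.log m ^ 2| ≤ ε * (sing m * P n / Real.log m ^ 2)

/-- `Holds` for all the even integers `m > 0` at a distance of at most `Q` from `v`. -/
def Near (ε : ℝ) (Q : ℕ) (v : ℤ) : Prop := ∀ m : ℕ, 0 < m → Even m → |(m : ℤ) - v| ≤ Q → Holds ε m

lemma holds_of (ε : ℝ) (hε : 0 < ε) : ∃ m₀ : ℕ, ∀ m : ℕ, m₀ ≤ m → 2 ∣ m →
    Pool.Agent.W93.PG.WinP (min ε (1 / 2) / 4) 2 m → Holds ε m := by
  obtain ⟨m₀, h0⟩ := Pool.Agent.W93.PG.reps_of_win (min ε (1 / 2)) (lt_min hε (by norm_num))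
    ((min_le_right _ _).trans (by norm_num))
  refine ⟨m₀ + 3, ?_⟩
  intro m hm _ hwin n hn h2 h3
  have h4 := h0 m (by omega) hwin n hn h2 h3
  have hm0 : (3 : ℝ) ≤ m := by exact_mod_cast (by omega : 3 ≤ m)
  have hlog : 0 < Real.log m := Real.log_pos (by linarith)
  have hs := Pool.Agent.W93.GB.one_le_sing m
  have hP : (0 : ℝ) < P n := by exact_mod_cast Pool.Agent.W93.PG.PR_pos n
  have hmain : 0 < sing m * P n / Real.log m ^ 2 := by positivity
  have hR : R n m = Pool.Agent.W93.PG.reps n m := rfl
  have hPR : Pool.Agent.W93.PG.PR n = P n := rfl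
  rw [← hR, hPR] at h4
  have h5 : |(R n m : ℝ) - sing m * P n / Real.log m ^ 2| ≤ ε * (sing m * P n / Real.log m ^ 2) :=
    h4.trans (mul_le_mul_of_nonneg_right (min_le_left _ _) hmain.le)
  have h6 : |(R n m : ℝ) - sing m * P n / Real.log m ^ 2| ≤ 1 / 2 * (sing m * P n / Real.log m ^ 2) :=
    h4.trans (mul_le_mul_of_nonneg_right (min_le_right _ _) hmain.le)
  refine ⟨?_, h5⟩
  have h7 : (0 : ℝ) < R n m := by
    rw [abs_le] at h6
    linarith [h6.1]
  have h8 : 0 < R n m := by exact_mod_cast h7
  unfold R at h8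
  rw [card_pos] at h8
  obtain ⟨p, hp⟩ := h8
  rw [mem_filter, mem_Icc] at hp
  obtain ⟨⟨p1, p2⟩, p3, p4, p5, p6⟩ := hp
  exact ⟨p, m - p, p3, p4, by have := p4.pos; omega, p1, p2, p5, p6⟩

/-- Let `b ≥ 2`, `B`, `W`, `U`, the integers `κ ≠ 0` and `β`, `η > 0` and `ε > 0` be fixed, and let `k` be large.

* Let `|c| ≤ B b ^ k`. For almost all the rearrangements `v` of arbitrary `k` digits, for almost all the palindromes
  `v` with `k` digits, and with high probability for random integers `v` with independent pairs of mirror digits (the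
  proportion of the exceptions is at most `1 / k ^ U`): ALL the even integers `m > 0` at a distance of at most
  `k ^ W` from `c + κ v` satisfy the assertion of the problem, and the number of the representations required there is
  as predicted, up to a relative error of at most `ε`.
* Let `|c| ≤ B b ^ (2 k)`. The same holds for all the even integers at a distance of at most `k ^ W` from
  `c + κ x ^ 2 + β x`, for almost all the integers `x` below `b ^ k` whose `i`-th digit lies in the given set `D i` of
  at least two digits, for all `i < k`. -/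
theorem result (b B W U : ℕ) (hb : 2 ≤ b) (κ β : ℤ) (hκ : κ ≠ 0) (η ε : ℝ) (hη : 0 < η) (hε : 0 < ε) :
    ∃ k₀ : ℕ, ∀ k : ℕ, k₀ ≤ k →
      (∀ c : ℤ, |c| ≤ B * (b : ℤ) ^ k → Digits b k U κ c η (Near ε (k ^ W))) ∧
      (∀ c : ℤ, |c| ≤ B * (b : ℤ) ^ (2 * k) → Quadratics b k U κ β c (Near ε (k ^ W))) := by
  obtain ⟨m₀, hm₀⟩ := holds_of ε hε
  have hε' : 0 < min ε (1 / 2) / 4 := div_pos (lt_min hε (by norm_num)) (by norm_num)
  obtain ⟨k1, h1⟩ := digits_gold b B 2 W U m₀ hb κ hκ η _ hη hε' (Holds ε) hm₀
  obtain ⟨k2, h2⟩ := quad_gold b B 2 W U m₀ hb κ β hκ _ hε' (Holds ε) hm₀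
  have hN : ∀ (k : ℕ) (v : ℤ), (∀ m : ℕ, 0 < m → Even m → |(m : ℤ) - v| ≤ (k : ℤ) ^ W → Holds ε m) →
      Near ε (k ^ W) v := by
    intro k v hv m hm hev hnv
    exact hv m hm hev (by push_cast at hnv ⊢; exact hnv)
  exact ⟨k1 + k2, fun k hk => ⟨fun c hc => (h1 k (by omega) c hc).mono (hN k),
    fun c hc => (h2 k (by omega) c hc).mono (hN k)⟩⟩

end Pool.Agent.Results.MP_484fb8_nt.NearDigitFamilies
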