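import Pool.Agent.Results.MP_73b532_nt.WindowsAfterPowers
import Pool.Agent.W93.PG7

/-!
# Goldbach representations in primorial intervals after adding a bounded number of powers of `b`

Every finite set `T` of even integers between `#(n) + 1` and `M #(n)` (for instance one integer) has a translate `T + d`,
where `d ≤ θ #(n)` is a sum of at most `K` different powers of `b`, such that all but at most `ρ |T|` elements `m` of the
translate satisfy the assertion of the problem, with the expected number of representations.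

Definition used from `Pool.Agent.H560R3.GB` (starting files): `sing n`: the singular series
`2 C₂ ∏_{p ∣ n, p > 2} (p - 1) / (p - 2)`, where `C₂` is the twin prime constant `∏_{p > 2} (1 - 1 / (p - 1) ^ 2)`.

The proof rests on the theorem on windows of the starting file `MP_73b532_nt.WindowsAfterPowers`.
-/

set_option autoImplicit false

namespace Pool.Agent.Results.MP_484fb8_nt.TranslatesByFewPowers

open Finset Pool.Agent.H560R3.GB
open Pool.Agent.Results.MP_73b532_nt.WindowsAfterPowers (inWindow)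

/-- `#(n)`: the product of the first `n` primes. -/
noncomputable def P (n : ℕ) : ℕ := ∏ i ∈ range n, Nat.nth Nat.Prime i

/-- The number of primes `p` in the `n`-th primorial interval such that `m - p` is a prime which lies in the
`n`-th or in the `n + 1`-st primorial interval. -/
noncomputable def R (n m : ℕ) : ℕ :=
  ((Icc (P (n - 1) + 1) (P n + 1)).filter
    (fun p => p.Prime ∧ (m - p).Prime ∧ P (n - 1) + 1 ≤ m - p ∧ m - p ≤ P (n + 1) + 1)).card

/-- The integer `m` belongs to the `n + 1`-st primorial interval, and `m = p + q` where `p` is a prime in the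
`n`-th primorial interval and `q` is a prime in the `n`-th or in the `n + 1`-st one; moreover, up to a relative
error of at most `ε`, the number of these representations is `sing m * #(n) / log ^ 2 m`. -/
def Holds (ε : ℝ) (n m : ℕ) : Prop :=
  P n + 1 ≤ m ∧ m ≤ P (n + 1) + 1 ∧
  (∃ p q : ℕ, p.Prime ∧ q.Prime ∧ m = p + q ∧ P (n - 1) + 1 ≤ p ∧ p ≤ P n + 1 ∧ P (n - 1) + 1 ≤ q ∧ q ≤ P (n + 1) + 1) ∧
  |(R n m : ℝ) - sing m * P n / Real.log m ^ 2| ≤ ε * (sing m * P n / Real.log m ^ 2)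

lemma P_pos (n : ℕ) : 0 < P n := Pool.Agent.W93.PG.PR_pos n

lemma P_succ (n : ℕ) : P (n + 1) = P n * Nat.nth Nat.Prime n := Pool.Agent.W93.PG.PR_succ n

lemma P_ge (n : ℕ) : n ≤ P n := by
  induction n with
  | zero => exact Nat.zero_le _
  | succ n ih =>
    rw [P_succ]
    have h1 := P_pos n
    have h2 := Nat.add_two_le_nth_prime n
    nlinarith

lemma R_eq (n m : ℕ) (hm : m ≤ P (n + 1) + 1) (h1 : P n + 1 ≤ m) :
    R n m = inWindow m (P (n - 1) : ℝ) ((min (P n + 1) (m - P (n - 1) - 1) : ℕ) : ℝ) := by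
  classical
  unfold R inWindow
  congr 1
  ext p
  simp only [mem_filter, mem_Icc, Nat.cast_lt, Nat.cast_le, le_min_iff]
  constructor
  · rintro ⟨⟨h2, h3⟩, h4, h5, h6, h7⟩
    refine ⟨⟨h4.one_le, by omega⟩, by omega, ⟨h3, by omega⟩, h4, h5⟩
  · rintro ⟨⟨h2, h3⟩, h4, ⟨h5, h6⟩, h7, h8⟩
    refine ⟨⟨by omega, h5⟩, h7, h8, by omega, by omega⟩

/-- For all `b ≥ 2`, `M ≥ 1` and `ε, ρ, θ > 0` there are `K` and `n₀` with the following property. Let `n ≥ n₀` and let `T`
be an ARBITRARY finite set of even integers between `#(n) + 1` and `M #(n)` (of any size; for instance one integer, with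
`ρ < 1`). There is a set `S` of at most `K` exponents, with `d = ∑_{ν ∈ S} b ^ ν ≤ θ #(n)`, such that for all but at most
`ρ |T|` of the elements `N` of `T` the number `m = N + d` is even and has the following property: `m` belongs to the
`n + 1`-st primorial interval, it is a sum of a prime in the `n`-th primorial interval and a prime in the `n`-th or the
`n + 1`-st one, and the number of these representations is as predicted, up to a relative error of at most `ε`. -/
theorem result (b M : ℕ) (hb : 2 ≤ b) (hM : 1 ≤ M) (ε ρ θ : ℝ) (hε : 0 < ε) (hρ : 0 < ρ) (hθ : 0 < θ) :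
    ∃ K n₀ : ℕ, ∀ n : ℕ, n₀ ≤ n → ∀ T : Finset ℕ, (∀ N ∈ T, 2 ∣ N ∧ P n + 1 ≤ N ∧ N ≤ M * P n) →
      ∃ S : Finset ℕ, S.card ≤ K ∧ ∑ ν ∈ S, (b : ℝ) ^ ν ≤ θ * P n ∧
        ∃ E ⊆ T, (E.card : ℝ) ≤ ρ * T.card ∧ ∀ N ∈ T, N ∉ E → ∀ m : ℕ, m = N + ∑ ν ∈ S, b ^ ν → 2 ∣ m ∧ Holds ε n m := by
  obtain ⟨e, he⟩ : ∃ e, e = min ε (1 / 2) := ⟨_, rfl⟩
  have he0 : 0 < e := by rw [he]; exact lt_min hε (by norm_num)
  have he1 : e ≤ 1 / 2 := by rw [he]; exact min_le_right _ _
  have heε : e ≤ ε := by rw [he]; exact min_le_left _ _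
  obtain ⟨t, ht⟩ : ∃ t, t = min θ 1 := ⟨_, rfl⟩
  have ht0 : 0 < t := by rw [ht]; exact lt_min hθ one_pos
  have ht1 : t ≤ 1 := by rw [ht]; exact min_le_right _ _
  have htθ : t ≤ θ := by rw [ht]; exact min_le_left _ _
  have hMr : (1 : ℝ) ≤ M := by exact_mod_cast hM
  obtain ⟨K, X₀, hK⟩ := Pool.Agent.Results.MP_73b532_nt.WindowsAfterPowers.result b M hb hM (e / (2 * (M + 1))) ρ (t / M)
    (by positivity) hρ (by positivity)
  obtain ⟨n1, hn1⟩ := exists_nat_ge (8 / e)
  refine ⟨K, X₀ + n1 + M + 4, fun n hn T hT => ?_⟩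
  have hPn := P_ge n
  have hP0 : 0 < P n := P_pos n
  have hPr : (0 : ℝ) < P n := by exact_mod_cast hP0
  have hX : X₀ ≤ M * P n := by nlinarith
  obtain ⟨S, hS1, hS2, E, hE1, hE2, hE3⟩ := hK (M * P n) hX T (fun N hN => ⟨(hT N hN).1, (hT N hN).2.2,
    Nat.mul_le_mul_left _ (by have := (hT N hN).2.1; omega)⟩)
  have hS2' : ∑ ν ∈ S, (b : ℝ) ^ ν ≤ t * P n := by
    refine hS2.trans (le_of_eq ?_)
    push_cast
    field_simp
  refine ⟨S, hS1, hS2'.trans (mul_le_mul_of_nonneg_right htθ hPr.le), E, hE1, hE2, fun N hN hNE m hm => ?_⟩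
  obtain ⟨h2m, hwin⟩ := hE3 N hN hNE m hm
  obtain ⟨_, hN1, hN2⟩ := hT N hN
  refine ⟨h2m, ?_⟩
  -- the size of `m`
  have hsum : ((∑ ν ∈ S, b ^ ν : ℕ) : ℝ) ≤ P n := by
    push_cast
    exact hS2'.trans (by nlinarith)
  have hsum' : ∑ ν ∈ S, b ^ ν ≤ P n := by exact_mod_cast hsum
  have hm1 : P n + 1 ≤ m := by omega
  have hm2 : m ≤ (M + 1) * P n := by
    have : (M + 1) * P n = M * P n + P n := by ring
    omega
  have hq := Nat.add_two_le_nth_prime n
  have hm3 : m ≤ P (n + 1) + 1 := by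
    rw [P_succ]
    have h1 : (M + 1) * P n ≤ P n * Nat.nth Nat.Prime n := by
      rw [mul_comm]
      exact Nat.mul_le_mul_left _ (by omega)
    omega
  -- the previous primorial
  obtain ⟨k, rfl⟩ : ∃ k, n = k + 1 := ⟨n - 1, by omega⟩
  have hk1 : k + 1 - 1 = k := rfl
  have hPk := P_pos k
  have hPk2 : (n1 + 4) * P k ≤ P (k + 1) := by
    rw [P_succ, mul_comm]
    have := Nat.add_two_le_nth_prime k
    exact Nat.mul_le_mul_left _ (by omega)
  have hPkr : (1 : ℝ) ≤ P k := by exact_mod_cast hPk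
  have hsmall : 3 * (P k : ℝ) + 1 ≤ e / 2 * P (k + 1) := by
    have h1 : ((n1 : ℝ) + 4) * P k ≤ P (k + 1) := by exact_mod_cast hPk2
    have h2 : 8 / e * P k ≤ P (k + 1) := by
      refine le_trans ?_ h1
      apply mul_le_mul_of_nonneg_right _ (by linarith)
      linarith
    have h3 : e / 2 * (8 / e * P k) = 4 * P k := by field_simp; ring
    have h4 : e / 2 * (8 / e * P k) ≤ e / 2 * P (k + 1) := mul_le_mul_of_nonneg_left h2 (by positivity)
    linarith
  have h2k : 2 * P k + 2 ≤ P (k + 1) := by nlinarith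
  -- the window
  obtain ⟨v, hv⟩ : ∃ v : ℕ, v = min (P (k + 1) + 1) (m - P k - 1) := ⟨_, rfl⟩
  have hv1 : v ≤ P (k + 1) + 1 := by rw [hv]; exact min_le_left _ _
  have hv2 : P (k + 1) - P k ≤ v := by rw [hv]; omega
  have hv3 : v ≤ m := by rw [hv]; omega
  have hvr1 : (v : ℝ) ≤ P (k + 1) + 1 := by exact_mod_cast hv1
  have hvr2 : (P (k + 1) : ℝ) - P k ≤ v := by
    have : P (k + 1) ≤ v + P k := by omega
    have h : (P (k + 1) : ℝ) ≤ v + P k := by exact_mod_cast this
    linarith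
  have hR := R_eq (k + 1) m hm3 hm1
  rw [hk1, ← hv] at hR
  have hw := hwin (P k) v (by positivity) (by exact_mod_cast (by omega : P k ≤ v)) (by exact_mod_cast hv3)
  rw [← hR] at hw
  have hm0 : (3 : ℝ) ≤ m := by exact_mod_cast (by omega : 3 ≤ m)
  have hlog : 0 < Real.log m := Real.log_pos (by linarith)
  have hs := Pool.Agent.W93.GB.one_le_sing m
  obtain ⟨c, hc⟩ : ∃ c, c = sing m / Real.log m ^ 2 := ⟨_, rfl⟩
  have hc0 : 0 < c := by rw [hc]; positivity
  have e1 : ∀ x : ℝ, sing m * (x / Real.log m ^ 2) = c * x := by intro x; rw [hc]; ring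
  have e2 : sing m * P (k + 1) / Real.log m ^ 2 = c * P (k + 1) := by rw [hc]; ring
  rw [e1, e1] at hw
  have hmr : (m : ℝ) ≤ (M + 1) * P (k + 1) := by exact_mod_cast hm2
  have hw2 : e / (2 * (M + 1)) * (c * m) ≤ e / 2 * (c * P (k + 1)) := by
    have h1 : e / (2 * (M + 1)) * (c * m) ≤ e / (2 * (M + 1)) * (c * ((M + 1) * P (k + 1))) :=
      mul_le_mul_of_nonneg_left (mul_le_mul_of_nonneg_left hmr hc0.le) (by positivity)
    refine h1.trans (le_of_eq ?_)
    field_simp
  have hfin : |(R (k + 1) m : ℝ) - c * P (k + 1)| ≤ e * (c * P (k + 1)) := by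
    have h3 : |(R (k + 1) m : ℝ) - c * ((v : ℝ) - P k)| ≤ e / 2 * (c * P (k + 1)) := hw.trans hw2
    have h4 : |c * ((v : ℝ) - P k) - c * P (k + 1)| ≤ e / 2 * (c * P (k + 1)) := by
      have h5 : c * ((v : ℝ) - P k) - c * P (k + 1) = c * ((v : ℝ) - P k - P (k + 1)) := by ring
      rw [h5, abs_mul, abs_of_pos hc0]
      have h6 : |(v : ℝ) - P k - P (k + 1)| ≤ 3 * (P k : ℝ) + 1 := by
        rw [abs_le]
        constructor <;> linarith
      calc c * |(v : ℝ) - P k - P (k + 1)| ≤ c * (e / 2 * P (k + 1)) := mul_le_mul_of_nonneg_left (h6.trans hsmall) hc0.le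
        _ = _ := by ring
    have h7 : (R (k + 1) m : ℝ) - c * P (k + 1) = ((R (k + 1) m : ℝ) - c * ((v : ℝ) - P k)) + (c * ((v : ℝ) - P k) - c * P (k + 1)) := by ring
    rw [h7]
    refine (abs_add_le _ _).trans ?_
    linarith
  have hmain : 0 < c * P (k + 1) := by positivity
  unfold Holds
  rw [e2]
  refine ⟨hm1, hm3, ?_, hfin.trans (mul_le_mul_of_nonneg_right heε hmain.le)⟩
  have h8 : (0 : ℝ) < R (k + 1) m := by
    have h9 := (abs_le.1 hfin).1
    nlinarith
  have h9 : 0 < R (k + 1) m := by exact_mod_cast h8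
  unfold R at h9
  rw [card_pos] at h9
  obtain ⟨p, hp⟩ := h9
  rw [mem_filter, mem_Icc] at hp
  obtain ⟨⟨p1, p2⟩, p3, p4, p5, p6⟩ := hp
  exact ⟨p, m - p, p3, p4, by have := p4.pos; omega, p1, p2, p5, p6⟩

end Pool.Agent.Results.MP_484fb8_nt.TranslatesByFewPowers
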